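import Pool.Agent.H69.SM.T3aGeo

set_option autoImplicit false
open Set Filter Topology Metric

/-!
# MP_2e6055, F5, (T3a) (helper69): a small connected set of faces that separates the tip from the
centre touches outer faces of both colours, if the centre sees both arcs.
-/

namespace Pool.Agent.H69.SM

open Pool.Agent.H75.Perc Pool.Agent.H7.UC Pool.Agent.H74.Tri Pool.Agent.H93.SM Pool.Agent.H69.UC

/-- growth of a chart near the centre -/
theorem growth : ∃ s0 : ℝ, 0 < s0 ∧ s0 ≤ 1 / 2 ∧ ∀ (D : Set ℂ) (φ : ℂ → ℂ) (b : ℂ) (d : ℝ),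
    DiscChart D φ → 0 < d → ball (φ 0) d ⊆ D → b ∉ D → ‖b - φ 0‖ ≤ d →
    ∀ w, ‖w‖ ≤ s0 → ‖φ w - φ 0‖ ≤ d / 2 := by
  obtain ⟨A, hA, h⟩ := G2 (s := 1 / 2) (by norm_num)
  refine ⟨1 / (8 * A), by positivity, ?_, ?_⟩
  · rw [div_le_div_iff₀ (by positivity) (by norm_num)]
    linarith
  intro D φ b d hφ hd hball hb hbd w hw
  have hbd' : dist (φ 0) b = d := by
    apply le_antisymm
    · rw [dist_comm, dist_eq_norm]; exact hbd
    · by_contra hcon
      rw [not_le] at hcon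
      exact hb (hball (by rw [mem_ball, dist_comm]; exact hcon))
  have h1 : ∀ w : ℂ, ‖w‖ ≤ 1 / 2 → dist (φ w) (φ 0) ≤ A * d := fun w hw =>
    h D φ (φ 0) b d hφ rfl hd hb hbd' w hw
  have hdiff : DifferentiableOn ℂ φ (ball 0 (1 / 2)) :=
    hφ.diff.mono (ball_subset_ball (by norm_num))
  have hmap : MapsTo φ (ball 0 (1 / 2)) (closedBall (φ 0) (A * d)) := by
    intro x hx
    rw [mem_ball, dist_zero_right] at hx
    exact h1 x hx.le
  have hA8 : 1 / (8 * A) < 1 / 2 := by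
    rw [div_lt_div_iff₀ (by positivity) (by norm_num)]
    linarith
  have h4 := Complex.dist_le_div_mul_dist_of_mapsTo_ball hdiff hmap (z := w)
    (by rw [mem_ball, dist_zero_right]; exact hw.trans_lt hA8)
  rw [dist_zero_right] at h4
  rw [← dist_eq_norm]
  refine h4.trans ?_
  calc A * d / (1 / 2) * ‖w‖ ≤ A * d / (1 / 2) * (1 / (8 * A)) := by gcongr
    _ = d / 4 := by field_simp; norm_num
    _ ≤ d / 2 := by linarith

/-- union of the edges of a set -/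
def ES (A : Set Ed) : Set ℂ := ⋃ v : Vx, ⋃ k : Fin 3, ⋃ _ : ed v k ∈ A, segment ℝ (pv v) (pv (nb v k))

/-- each boundary arc contains a connected set with both marks -/
theorem eco (U : Finset Fc) (M : Marks U 2) (j : Fin 2) : ∃ E : Set ℂ, E ⊆ ES ↑(M.C j) ∧
    IsPreconnected E ∧ pv (M.u 0) ∈ E ∧ pv (M.u 1) ∈ E := by
  have hd : ∀ v, dv (ind (↑(M.C j) : Set Ed)) v = ind {M.u 0} v + ind {M.u 1} v := by
    intro v
    rw [M.dvC j v]
    fin_cases j
    · rfl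
    · exact add_comm _ _
  have h01 : M.u 0 ≠ M.u 1 := fun h => absurd (M.inj h) (by decide)
  have hx : ∀ e, ind (↑(M.C j) : Set Ed) e ≠ 0 → e ∈ M.C j := by
    intro e he
    by_contra h0
    exact he (ind_not (by simpa using h0))
  have h1 : dv (ind (↑(M.C j) : Set Ed)) (M.u 0) = 1 := by
    rw [hd, ind_mem (s := {M.u 0}) (mem_singleton _), ind_not (s := {M.u 1}) (by simpa using h01),
      add_zero]
  have hfin : {e | ind (↑(M.C j) : Set Ed) e ≠ 0}.Finite :=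
    (M.C j).finite_toSet.subset (fun e he => hx e he)
  obtain ⟨t, ht, hc, ht1⟩ := H98.UC.odd_partner hfin h1
  have h4 : t = M.u 1 := by
    by_contra h5
    rw [hd, ind_not (by simpa using ht), ind_not (by simpa using h5), add_zero] at ht1
    exact absurd ht1 (by decide)
  subst h4
  clear ht1 ht
  have key : ∀ v, Conn (ind (↑(M.C j) : Set Ed)) (M.u 0) v → v ≠ M.u 0 →
      ∃ E : Set ℂ, E ⊆ ES ↑(M.C j) ∧ IsPreconnected E ∧ pv (M.u 0) ∈ E ∧ pv v ∈ E := by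
    intro v hv
    induction hv with
    | refl => intro h; exact absurd rfl h
    | @tail a b h2 h3 ih =>
      intro _
      obtain ⟨k, hk, hk1⟩ := h3
      subst hk
      have hak : ed a k ∈ M.C j := hx _ (by rw [hk1]; decide)
      have hsub : segment ℝ (pv a) (pv (nb a k)) ⊆ ES ↑(M.C j) := by
        intro y hy
        simp only [ES, mem_iUnion]
        exact ⟨a, k, hak, hy⟩
      by_cases ha : a = M.u 0
      · subst ha
        exact ⟨_, hsub, (convex_segment _ _).isPreconnected, left_mem_segment _ _ _,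
          right_mem_segment _ _ _⟩
      · obtain ⟨E, h4, h5, h6, h7⟩ := ih ha
        exact ⟨E ∪ segment ℝ (pv a) (pv (nb a k)), union_subset h4 hsub,
          h5.union _ h7 (left_mem_segment _ _ _) (convex_segment _ _).isPreconnected, Or.inl h6,
          Or.inr (right_mem_segment _ _ _)⟩
  exact key _ hc h01.symm

/-- if `Y` is a connected boundary set with two far points of the circle which is not touched by the
small connected set `K`, then every face touching `Y` is joined to the centre off `K` -/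
theorem hide {s0 : ℝ} (hs0 : 0 < s0) : ∃ c > (0 : ℝ), c ≤ 1 / 8 ∧ ∃ K0 : ℝ, ∀ (U : Finset Fc)
    (φ : ℂ → ℂ) (z : Fc) (x : ℂ), IsDom U → DiscChart (reg U) φ → φ 0 = ctr z → z ∈ U →
    ball (ctr z) (dst U z) ⊆ reg U → K0 ≤ dst U z →
    ∀ ρ : ℝ, ρ ≤ dst U z → K0 ≤ ρ → dst U z ≤ ‖x - ctr z‖ →
    ∀ K : Set Fc, (∀ f ∈ K, f ∈ U ∧ ‖ctr f - x‖ ≤ c * ρ) → (∀ f ∈ K, ∀ g ∈ K, Jn K f g) →
    ∀ Y : Set ℂ, IsPreconnected Y → Y ⊆ closure (reg U) → Disjoint Y (⋃ f ∈ K, cell f) →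
    ∀ q1 q2 : ℂ, ‖q1‖ = 1 → ‖q2‖ = 1 → φ q1 ∈ Y → φ q2 ∈ Y → s0 ≤ ‖q1 - q2‖ →
    ∀ f ∈ U, (cell f ∩ Y).Nonempty → Jn {h | h ∈ U ∧ h ∉ K} z f := by
  obtain ⟨s1, hs1, hs1', hgr⟩ := growth
  obtain ⟨η, hη, hη1, hη2⟩ : ∃ η : ℝ, 0 < η ∧ η < s0 / 2 ∧ η < s1 := by
    have h3 : 0 < min (s0 / 2) s1 := lt_min (by positivity) hs1
    have h1 := min_le_left (s0 / 2) s1
    have h2 := min_le_right (s0 / 2) s1
    exact ⟨min (s0 / 2) s1 / 2, by positivity, by linarith, by linarith⟩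
  obtain ⟨δ, hδ, hG⟩ := G1 hη
  obtain ⟨c, hc, hc1, hc2⟩ : ∃ c : ℝ, 0 < c ∧ c ≤ 1 / 8 ∧ 4 * c ≤ δ := by
    have h3 : 0 < min (1 / 8) (δ / 4) := lt_min (by norm_num) (by positivity)
    have h1 := min_le_left (1 / 8) (δ / 4)
    have h2 := min_le_right (1 / 8) (δ / 4)
    exact ⟨min (1 / 8) (δ / 4), h3, h1, by linarith⟩
  refine ⟨c, hc, hc1, 2 / c, ?_⟩
  intro U φ z x hU hφ h0 hz hball hK0 ρ hρ1 hρ2 hx K hK hKc Y hY hYc hYK q1 q2 hq1 hq2 hqY1 hqY2
    hq12 f hf hfY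
  have h16 : 16 ≤ 2 / c := by
    rw [le_div_iff₀ hc]; linarith
  have hcρ : 2 ≤ c * ρ := by
    have := mul_le_mul_of_nonneg_left hρ2 hc.le
    rwa [mul_div_cancel₀ _ hc.ne'] at this
  have hd0 : 0 < dst U z := by linarith
  -- points of the cells of `K`
  have hKx : ∀ y ∈ ⋃ f ∈ K, cell f, dist y x ≤ c * ρ + 2 := by
    intro y hy
    simp only [mem_iUnion] at hy
    obtain ⟨g, hg, hy⟩ := hy
    have h1 := dist_ctr_le hy
    have h2 := (hK g hg).2
    rw [← dist_eq_norm] at h2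
    linarith [dist_triangle y (ctr g) x]
  have hKz : ∀ y ∈ ⋃ f ∈ K, cell f, dst U z / 2 < dist y (ctr z) := by
    intro y hy
    have h1 := hKx y hy
    rw [← dist_eq_norm] at hx
    have h2 := dist_triangle x y (ctr z)
    rw [dist_comm x y] at h2
    have h3 : c * ρ ≤ 1 / 8 * dst U z := by
      have : 0 ≤ ρ := by linarith
      nlinarith
    linarith
  have hKcl : (⋃ f ∈ K, cell f) ⊆ closure (reg U) := by
    intro y hy
    simp only [mem_iUnion] at hy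
    obtain ⟨g, hg, hy⟩ := hy
    exact mem_closure_reg.2 ⟨g, (hK g hg).1, hy⟩
  -- the preimage
  set E : Set ℂ := closedBall 0 1 ∩ φ ⁻¹' (⋃ f ∈ K, cell f) with hE
  have hEc : IsPreconnected E := preconn_preimage hφ.cont hφ.inj (preconn_cells hKc)
    (by rw [hφ.imgc]; exact hKcl)
  have hEs : ∀ a ∈ E, ∀ b ∈ E, dist a b ≤ η := by
    refine hG (reg U) φ (ctr z) (dst U z) hφ h0 hd0 hball E inter_subset_left hEc ?_
    intro a ha b hb
    have h1 := hKx _ ha.2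
    have h2 := hKx _ hb.2
    have h3 := dist_triangle_right (φ a) (φ b) x
    have h4 : 0 ≤ ρ := by linarith
    calc dist (φ a) (φ b) ≤ 4 * c * ρ := by linarith
      _ ≤ δ * dst U z := by gcongr
  -- the connected set `Γ`
  obtain ⟨S, hS1, hS2, hS3, hS4, hS5⟩ : ∃ S : Set ℂ, IsPreconnected S ∧ S ⊆ closedBall 0 1 ∧
      Disjoint S E ∧ (0 : ℂ) ∈ S ∧ (q1 ∈ S ∨ q2 ∈ S) := by
    rcases E.eq_empty_or_nonempty with hE0 | ⟨e, he⟩
    · rw [hE0]
      exact ⟨closedBall 0 1, (convex_closedBall _ _).isPreconnected, subset_rfl,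
        disjoint_empty _, by simp, Or.inl (by rw [mem_closedBall, dist_zero_right]; exact hq1.le)⟩
    · have he1 : ‖e‖ ≤ 1 := by
        have := he.1
        rwa [mem_closedBall, dist_zero_right] at this
      refine ⟨{u : ℂ | ‖u‖ ≤ 1 ∧ η < ‖u - e‖}, preconn_disc he1 hη.le, ?_, ?_, ?_, ?_⟩
      · intro u hu
        rw [mem_closedBall, dist_zero_right]
        exact hu.1
      · rw [Set.disjoint_left]
        intro u hu huE
        have := hEs u huE e he
        rw [dist_eq_norm] at this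
        exact absurd hu.2 (not_lt.2 this)
      · refine ⟨by simp, ?_⟩
        rw [zero_sub, norm_neg]
        by_contra hcon
        rw [not_lt] at hcon
        obtain ⟨b, hb, hb2⟩ := exists_nearest U (ctr z)
        have hbd : ‖b - ctr z‖ ≤ dst U z := by
          unfold dst
          rw [← dist_eq_norm, dist_comm]
          by_contra hlt
          rw [not_le] at hlt
          obtain ⟨y, hy, hy2⟩ := (infDist_lt_iff ⟨b, hb⟩).1 hlt
          exact hy (hb2 (by rw [mem_ball, dist_comm]; exact hy2))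
        have := hgr (reg U) φ b (dst U z) hφ hd0 (by rw [h0]; exact hball) hb
          (by rw [h0]; exact hbd) e (hcon.trans hη2.le)
        have h5 := hKz _ he.2
        rw [h0, ← dist_eq_norm] at this
        linarith
      · by_contra hcon
        simp only [mem_ofPred_eq, not_or, not_and, not_lt] at hcon
        have h1 := hcon.1 hq1.le
        have h2 := hcon.2 hq2.le
        have h3 : ‖q1 - q2‖ ≤ ‖q1 - e‖ + ‖q2 - e‖ := by
          have := norm_sub_le (q1 - e) (q2 - e)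
          simpa using this
        linarith
  have himg : Disjoint (φ '' S) (⋃ f ∈ K, cell f) := by
    rw [Set.disjoint_left]
    rintro _ ⟨u, hu, rfl⟩ h
    exact Set.disjoint_left.1 hS3 hu ⟨hS2 hu, h⟩
  have hΓc : IsPreconnected (φ '' S ∪ Y) := by
    rcases hS5 with h | h
    · exact (hS1.image _ (hφ.cont.mono hS2)).union (φ q1) ⟨q1, h, rfl⟩ hqY1 hY
    · exact (hS1.image _ (hφ.cont.mono hS2)).union (φ q2) ⟨q2, h, rfl⟩ hqY2 hY
  have hΓs : φ '' S ∪ Y ⊆ closure (reg U) := by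
    refine union_subset ?_ hYc
    rw [← hφ.imgc]
    exact image_mono hS2
  have key := jn_of_conn hΓc hΓs hz hf ⟨ctr z, ctr_mem_cell z, Or.inl ⟨0, hS4, h0⟩⟩
    (hfY.mono (inter_subset_inter_right _ subset_union_right))
  refine Jn.mono ?_ key
  rintro h ⟨h1, y, hy1, hy2⟩
  refine ⟨h1, fun hK' => ?_⟩
  have h3 : y ∈ ⋃ f ∈ K, cell f := by
    simp only [mem_iUnion]
    exact ⟨h, hK', hy1⟩
  rcases hy2 with hy2 | hy2
  · exact Set.disjoint_left.1 himg hy2 h3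
  · exact Set.disjoint_left.1 hYK hy2 h3

/-- **(T3a)**, statement. `x` is any point which is not nearer to the centre than the boundary,
e.g. the tip vertex (see `T3A`). -/
def T3A : Prop := ∀ s0 > (0 : ℝ), ∃ c > (0 : ℝ), c ≤ 1 / 8 ∧ ∃ K0 : ℝ, ∀ (U : Finset Fc)
  (col : Fc → Bool) (z : Fc) (p : Pos) (ρ : ℝ), St U col → z ∈ U → IsTip U col p → K0 ≤ ρ →
  ρ ≤ dst U z → s0 ≤ sn U col z → ∀ K : Set Fc, (∀ f ∈ K, f ∈ U ∧ ‖ctr f - pv p.1‖ ≤ c * ρ) →
  (∀ f ∈ K, ∀ g ∈ K, Jn K f g) → ¬ Jn {h | h ∈ U ∧ h ∉ K} z (ph p) →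
  ∀ b : Bool, ∃ f ∈ K, ∃ g ∉ U, adjF f g ∧ col g = b

theorem t3a (hCH : CH) (hECT : ECT) : T3A := by
  intro s0 hs0
  obtain ⟨c, hc, hc1, K0, hmain⟩ := hide (s0 := 2 * s0) (by linarith)
  refine ⟨c, hc, hc1, K0, ?_⟩
  intro U col z p ρ hSt hz hp hρ0 hρ hsn K hK hKc hsep b
  obtain ⟨⟨φ, hφ, h0⟩, hch, hball, hdst, -, -⟩ := hCH U z hSt.dom hz
  obtain ⟨-, hsnv, hpos⟩ := hch φ hφ h0
  rcases hECT U col hSt with ⟨M, p1, q1, hp1, hq1, hpu, hqu, hup, huq, hcol⟩ | ⟨hn, -⟩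
  swap
  · exact absurd hp (hn p)
  obtain rfl := hup p hp
  -- positions of the marks
  have hposj : ∀ j : Fin 2, ∃ q : ℂ, ‖q‖ = 1 ∧ φ q = pv (M.u j) := by
    intro j
    obtain ⟨k, h1, h2, -⟩ := M.out j
    exact hpos (M.u j) (k + 1) ⟨k, h1⟩ h2
  obtain ⟨w0, hw0, hφ0⟩ := hposj 0
  obtain ⟨w1, hw1, hφ1⟩ := hposj 1
  have hsn2 : 2 * s0 ≤ ‖w0 - w1‖ := by
    have hex : ∃ t, TipE U col t := ⟨(p.1, nb q1.1 q1.2), p, q1, hp, rfl, hq1, rfl⟩
    have h1 : sn U col z = snv U z hex.choose.1 hex.choose.2 := by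
      unfold sn; rw [dif_pos hex]
    obtain ⟨p', q', hp', hpe, hq', hqe⟩ := hex.choose_spec
    rw [h1, ← hpe, ← hqe, hup p' hp', huq q' hq', hpu, hqu,
      hsnv _ _ w0 w1 hw0 hw1 hφ0 hφ1] at hsn
    linarith
  -- the tip is on the boundary
  obtain ⟨kk, hk1, hk2, -⟩ := M.out 0
  have hpx : dst U z ≤ ‖pv p.1 - ctr z‖ := by
    by_contra hcon
    rw [not_le] at hcon
    have h1 : pv p.1 ∈ reg U := hball (by rw [mem_ball, dist_eq_norm]; exact hcon)
    rw [hpu, ← hφ0] at h1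
    exact chart_not_mem hφ hw0 h1
  by_contra hcon
  push Not at hcon
  -- the arc
  obtain ⟨j, hj⟩ : ∃ j : Fin 2, ∀ e ∈ M.C j, ∀ f, (f = lf e ∨ f = rf e) → f ∉ U → col f = b := by
    cases b
    · refine ⟨0, fun e he f hf hfU => ?_⟩
      exact (hcol e ((M.mem e).2 ⟨0, he⟩) f hf hfU).1 he
    · refine ⟨1, fun e he f hf hfU => ?_⟩
      have h1 : e ∉ M.C 0 := fun h =>
        (Finset.disjoint_left.1 (M.disj 0 1 (by decide))) h he
      have h2 := (hcol e ((M.mem e).2 ⟨1, he⟩) f hf hfU).not.1 h1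
      simpa using h2
  obtain ⟨Y, hYE, hY, hY0, hY1⟩ := eco U M j
  have hYcell : ∀ y ∈ Y, ∃ f ∈ U, ∃ g ∉ U, y ∈ cell f ∧ y ∈ cell g ∧ col g = b := by
    intro y hy
    have h1 := hYE hy
    simp only [ES, mem_iUnion] at h1
    obtain ⟨v, k, hvk, hseg⟩ := h1
    have hvk' : ed v k ∈ M.C j := by simpa using hvk
    have hB : isB U (ed v k) := (M.mem _).2 ⟨j, hvk'⟩
    have c1 := segment_subset_cell1 v k hseg
    have c2 := segment_subset_cell2 v k hseg
    have hfaces := faces_ed v k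
    rcases (isB_iff U v k).1 hB with ⟨h2, h3⟩ | ⟨h2, h3⟩
    · refine ⟨_, h2, _, h3, c1, c2, hj _ hvk' _ ?_ h3⟩
      rcases hfaces with ⟨_, e1, e2⟩ | ⟨_, e1, e2⟩
      · exact Or.inr e2.symm
      · exact Or.inl e1.symm
    · refine ⟨_, h3, _, h2, c2, c1, hj _ hvk' _ ?_ h2⟩
      rcases hfaces with ⟨_, e1, e2⟩ | ⟨_, e1, e2⟩
      · exact Or.inl e1.symm
      · exact Or.inr e2.symm
  apply hsep
  refine hmain U φ z (pv p.1) hSt.dom hφ h0 hz hball (hρ0.trans hρ) ρ hρ hρ0 hpx K hK hKc Y hY ?_ ?_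
    w0 w1 hw0 hw1 (by rw [hφ0]; exact hY0) (by rw [hφ1]; exact hY1) hsn2 (ph p) hp.1
    ⟨pv p.1, pv_mem_cell p.1 p.2, by rw [hpu]; exact hY0⟩
  · intro y hy
    obtain ⟨f, hf, _, _, hyf, _⟩ := hYcell y hy
    exact mem_closure_reg.2 ⟨f, hf, hyf⟩
  · rw [Set.disjoint_left]
    intro y hy hyK
    simp only [mem_iUnion] at hyK
    obtain ⟨f, hfK, hyf⟩ := hyK
    obtain ⟨_, _, g, hg, _, hyg, hgb⟩ := hYcell y hy
    exact hcon f hfK g hg (adj_of_meet (by rintro rfl; exact hg (hK _ hfK).1) hyf hyg) hgb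

end Pool.Agent.H69.SM
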