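import Pool.Agent.H69.UC.A2Main
import Pool.Agent.H93.SM.Rad2
import Pool.Agent.H93.SM.Iface
import Pool.Agent.H98.UC.D3

set_option autoImplicit false
open Set Filter Topology Metric

/-!
# MP_2e6055, F5, (T3a): geometric lemmas (helper69)
-/

namespace Pool.Agent.H69.SM

open Pool.Agent.H75.Perc Pool.Agent.H7.UC Pool.Agent.H74.Tri Pool.Agent.H93.SM Pool.Agent.H69.UC
open Pool.Agent.H93.SM.R

/-- faces whose cells are met by a connected set are joined by such faces -/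
theorem jn_of_conn {U : Finset Fc} {Γ : Set ℂ} (hΓ : IsPreconnected Γ) (hU : Γ ⊆ closure (reg U))
    {f g : Fc} (hf : f ∈ U) (hg : g ∈ U) (hft : (cell f ∩ Γ).Nonempty)
    (hgt : (cell g ∩ Γ).Nonempty) : Jn {h | h ∈ U ∧ (cell h ∩ Γ).Nonempty} f g := by
  classical
  set S : Set Fc := {h | h ∈ U ∧ (cell h ∩ Γ).Nonempty} with hS
  obtain ⟨P, hP⟩ : ∃ P : Fc → Prop, ∀ h, P h ↔ Jn S f h := ⟨fun h => Jn S f h, fun _ => Iff.rfl⟩
  set A1 : Set ℂ := ⋃ h ∈ U.filter P, cell h with hA1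
  set A2 : Set ℂ := ⋃ h ∈ U.filter (fun h => ¬ P h), cell h with hA2
  have hc1 : IsClosed A1 := isClosed_cells _
  have hc2 : IsClosed A2 := isClosed_cells _
  have m1 : ∀ z, z ∈ A1 ↔ ∃ h ∈ U, P h ∧ z ∈ cell h := by
    intro z; simp only [hA1, mem_iUnion, exists_prop, Finset.mem_filter, and_assoc]
  have m2 : ∀ z, z ∈ A2 ↔ ∃ h ∈ U, ¬ P h ∧ z ∈ cell h := by
    intro z; simp only [hA2, mem_iUnion, exists_prop, Finset.mem_filter, and_assoc]
  by_contra hcon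
  have hcov : Γ ⊆ A1 ∪ A2 := by
    intro z hz
    obtain ⟨h, hh, hzh⟩ := mem_closure_reg.1 (hU hz)
    by_cases hx : P h
    · exact Or.inl ((m1 z).2 ⟨h, hh, hx, hzh⟩)
    · exact Or.inr ((m2 z).2 ⟨h, hh, hx, hzh⟩)
  have hn1 : (Γ ∩ A1).Nonempty := by
    obtain ⟨z, hz1, hz2⟩ := hft
    exact ⟨z, hz2, (m1 z).2 ⟨f, hf, (hP f).2 (Jn.refl f), hz1⟩⟩
  have hn2 : (Γ ∩ A2).Nonempty := by
    obtain ⟨z, hz1, hz2⟩ := hgt
    exact ⟨z, hz2, (m2 z).2 ⟨g, hg, fun h => hcon ((hP g).1 h), hz1⟩⟩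
  obtain ⟨z, hz, hz1, hz2⟩ := isPreconnected_closed_iff.1 hΓ A1 A2 hc1 hc2 hcov hn1 hn2
  obtain ⟨f1, hf1, hp1, hzf1⟩ := (m1 z).1 hz1
  obtain ⟨f2, hf2, hn, hzf2⟩ := (m2 z).1 hz2
  obtain ⟨v, k, l, hk, hl⟩ := exists_vx_of_meet hzf1 hzf2
  apply hn
  have hkl : k ≠ l := by
    rintro rfl
    exact hn (by rw [← hl, hk]; exact hp1)
  refine (hP f2).2 (((hP f1).1 hp1).step ⟨hf2, ⟨z, hzf2, hz⟩⟩ ?_)
  rw [← hk, ← hl]
  exact adjF_fc v hkl

/-- a face of `U` and a face off `U` whose cells meet are adjacent -/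
theorem adj_of_meet {f g : Fc} (hfg : f ≠ g) {z : ℂ} (hf : z ∈ cell f) (hg : z ∈ cell g) :
    adjF f g := by
  obtain ⟨v, k, l, hk, hl⟩ := exists_vx_of_meet hf hg
  rw [← hk, ← hl]
  exact adjF_fc v (by rintro rfl; exact hfg (by rw [← hk, ← hl]))

/-- the cells of a connected set of faces form a connected set -/
theorem preconn_cells {K : Set Fc} (hK : ∀ f ∈ K, ∀ g ∈ K, Jn K f g) :
    IsPreconnected (⋃ f ∈ K, cell f) := by
  apply IsPreconnected.biUnion_of_reflTransGen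
  · intro f _
    exact (convex_cell f).isPreconnected
  · intro a ha b hb
    have h := hK a ha b hb
    clear hb
    induction h with
    | refl => exact Relation.ReflTransGen.refl
    | @tail c d h1 h2 ih =>
      refine ih.tail ⟨?_, Jn.mem h1 ha⟩
      obtain ⟨hd, e, he⟩ := h2
      have h3 := pv_mem_cell (e.1, e.2.1, false) (e.2.2 + 1)
      have h4 := pv_mem_cell (e.1, e.2.1, false) (e.2.2 + 2)
      rcases he with ⟨h5, h6⟩ | ⟨h5, h6⟩
      · exact ⟨_, by rw [← h5]; exact h3, by rw [← h6]; exact h4⟩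
      · exact ⟨_, by rw [← h6]; exact h4, by rw [← h5]; exact h3⟩

/-- the circle without a closed disc is connected -/
theorem preconn_circle (e : ℂ) (η : ℝ) : IsPreconnected {u : ℂ | ‖u‖ = 1 ∧ η < ‖u - e‖} := by
  by_cases he : e = 0
  · subst he
    by_cases h1 : η < 1
    · convert Gam_conn (-1) using 1
      ext u
      simp only [Gam, mem_ofPred_eq, sub_zero]
      constructor
      · rintro ⟨h2, -⟩
        exact ⟨h2, lt_of_lt_of_le (by norm_num) (norm_nonneg _)⟩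
      · rintro ⟨h2, -⟩
        exact ⟨h2, by rw [h2]; exact h1⟩
    · convert isPreconnected_empty using 1
      ext u
      simp only [mem_ofPred_eq, sub_zero, mem_empty_iff_false, iff_false, not_and, not_lt]
      intro h2
      rw [h2]
      linarith
  have hr : 0 < ‖e‖ := norm_pos_iff.2 he
  by_cases hη : η < 0
  · convert Gam_conn (-1) using 1
    ext u
    simp only [Gam, mem_ofPred_eq]
    constructor
    · rintro ⟨h2, -⟩
      exact ⟨h2, lt_of_lt_of_le (by norm_num) (norm_nonneg _)⟩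
    · rintro ⟨h2, -⟩
      exact ⟨h2, hη.trans_le (norm_nonneg _)⟩
  rw [not_lt] at hη
  set q : ℂ := e / ‖e‖ with hq
  have hqn : ‖q‖ = 1 := by
    rw [hq, norm_div, Complex.norm_real, norm_norm, div_self hr.ne']
  have heq : e = (‖e‖ : ℂ) * q := by
    rw [hq, mul_div_cancel₀ _ (by exact_mod_cast hr.ne')]
  -- `‖u - e‖² = (1 - r)² + r ‖u - q‖²`
  have key : ∀ u : ℂ, ‖u‖ = 1 → ‖u - e‖ ^ 2 = (1 - ‖e‖) ^ 2 + ‖e‖ * ‖u - q‖ ^ 2 := by
    intro u hu
    have h1 : ‖u - e‖ ^ 2 = ‖u‖ ^ 2 - 2 * (u * (starRingEnd ℂ) e).re + ‖e‖ ^ 2 := by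
      rw [← Complex.normSq_eq_norm_sq, ← Complex.normSq_eq_norm_sq, ← Complex.normSq_eq_norm_sq,
        Complex.normSq_sub]
      ring
    have h2 : ‖u - q‖ ^ 2 = ‖u‖ ^ 2 - 2 * (u * (starRingEnd ℂ) q).re + ‖q‖ ^ 2 := by
      rw [← Complex.normSq_eq_norm_sq, ← Complex.normSq_eq_norm_sq, ← Complex.normSq_eq_norm_sq,
        Complex.normSq_sub]
      ring
    have h3 : (u * (starRingEnd ℂ) e).re = ‖e‖ * (u * (starRingEnd ℂ) q).re := by
      conv_lhs => rw [heq]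
      rw [map_mul, Complex.conj_ofReal, mul_left_comm, Complex.re_ofReal_mul]
    rw [h1, h2, h3, hu, hqn]
    ring
  set τ : ℝ := (η ^ 2 - (1 - ‖e‖) ^ 2) / ‖e‖ with hτ
  -- the set is `{τ < ‖u - q‖²}`
  have key2 : ∀ u : ℂ, ‖u‖ = 1 → (η < ‖u - e‖ ↔ τ < ‖u - q‖ ^ 2) := by
    intro u hu
    rw [← sq_lt_sq₀ hη (norm_nonneg _), key u hu, hτ, div_lt_iff₀ hr]
    constructor <;> intro h <;> nlinarith
  obtain ⟨δ, hδ⟩ : ∃ δ : ℝ, ∀ x : ℝ, 0 ≤ x → (τ < x ^ 2 ↔ δ < x) := by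
    by_cases h0 : 0 ≤ τ
    · refine ⟨√τ, fun x hx => ?_⟩
      rw [← sq_lt_sq₀ (Real.sqrt_nonneg τ) hx, Real.sq_sqrt h0]
    · refine ⟨-1, fun x hx => ⟨fun _ => by linarith, fun _ => by nlinarith [sq_nonneg x]⟩⟩
  have himg : {u : ℂ | ‖u‖ = 1 ∧ η < ‖u - e‖} = (fun u => q * u) '' Gam δ := by
    ext u
    simp only [mem_ofPred_eq, mem_image, Gam]
    have hq0 : q ≠ 0 := by
      intro h; rw [h, norm_zero] at hqn; exact zero_ne_one hqn
    constructor
    · rintro ⟨h1, h2⟩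
      refine ⟨q⁻¹ * u, ⟨?_, ?_⟩, by field_simp⟩
      · rw [norm_mul, norm_inv, hqn, h1]; norm_num
      · rw [key2 u h1, hδ _ (norm_nonneg _)] at h2
        have e1 : q⁻¹ * u - 1 = q⁻¹ * (u - q) := by field_simp
        rw [e1, norm_mul, norm_inv, hqn]
        simpa using h2
    · rintro ⟨w, ⟨h1, h2⟩, rfl⟩
      have h3 : ‖q * w‖ = 1 := by rw [norm_mul, hqn, h1]; norm_num
      refine ⟨h3, ?_⟩
      rw [key2 _ h3, hδ _ (norm_nonneg _)]
      have e1 : q * w - q = q * (w - 1) := by ring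
      rw [e1, norm_mul, hqn, one_mul]
      exact h2
  rw [himg]
  exact (Gam_conn δ).image _ (by fun_prop)

/-- the disc without a closed disc is connected -/
theorem preconn_disc {e : ℂ} (he : ‖e‖ ≤ 1) {η : ℝ} (hη : 0 ≤ η) :
    IsPreconnected {u : ℂ | ‖u‖ ≤ 1 ∧ η < ‖u - e‖} := by
  have hC := preconn_circle e η
  set C : Set ℂ := {u : ℂ | ‖u‖ = 1 ∧ η < ‖u - e‖} with hCdef
  have hCS : C ⊆ {u : ℂ | ‖u‖ ≤ 1 ∧ η < ‖u - e‖} := fun u hu => ⟨hu.1.le, hu.2⟩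
  -- radial pieces
  have rad : ∀ w : ℂ, ‖w‖ ≤ 1 → η < ‖w - e‖ → ∃ T : Set ℂ, w ∈ T ∧ (T ∩ C).Nonempty ∧
      IsPreconnected T ∧ T ⊆ {u : ℂ | ‖u‖ ≤ 1 ∧ η < ‖u - e‖} := by
    intro w hw1 hw2
    have hwe : 0 < ‖w - e‖ := hη.trans_lt hw2
    obtain ⟨t, ht1, ht2⟩ : ∃ t : ℝ, 1 ≤ t ∧ ‖e + (t : ℂ) * (w - e)‖ = 1 := by
      have hcont : ContinuousOn (fun t : ℝ => ‖e + (t : ℂ) * (w - e)‖) (Icc 1 (1 + 2 / ‖w - e‖)) := by
        fun_prop
      have h1 : (1:ℝ) ≤ 1 + 2 / ‖w - e‖ := by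
        have : 0 ≤ 2 / ‖w - e‖ := by positivity
        linarith
      have h2 := intermediate_value_Icc h1 hcont
      obtain ⟨t, ht, hte⟩ := h2 (show (1:ℝ) ∈ Icc _ _ from ⟨by simpa using hw1, by
        have h3 : ‖((1 + 2 / ‖w - e‖ : ℝ) : ℂ) * (w - e)‖ = ‖w - e‖ + 2 := by
          rw [norm_mul, Complex.norm_real, Real.norm_eq_abs, abs_of_pos (by linarith)]
          field_simp
        have h4 := norm_sub_le (e + ((1 + 2 / ‖w - e‖ : ℝ) : ℂ) * (w - e)) e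
        rw [add_sub_cancel_left, h3] at h4
        linarith⟩)
      exact ⟨t, ht.1, hte⟩
    set u : ℂ := e + (t : ℂ) * (w - e) with hu
    refine ⟨(fun s : ℝ => e + (s : ℂ) * (w - e)) '' Icc 1 t, ⟨1, ⟨le_rfl, ht1⟩, by simp⟩,
      ⟨u, ⟨t, ⟨ht1, le_rfl⟩, rfl⟩, ht2, ?_⟩, isPreconnected_Icc.image _ (by fun_prop), ?_⟩
    · rw [hu, add_sub_cancel_left, norm_mul, Complex.norm_real, Real.norm_eq_abs,
        abs_of_pos (by linarith)]
      nlinarith
    · rintro _ ⟨s, ⟨hs1, hs2⟩, rfl⟩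
      refine ⟨?_, ?_⟩
      · -- convexity
        have hseg : e + (s : ℂ) * (w - e) ∈ segment ℝ e u := by
          refine ⟨1 - s / t, s / t, ?_, by positivity, by ring, ?_⟩
          · rw [sub_nonneg, div_le_one (by linarith)]; exact hs2
          · have ht0 : (t : ℂ) ≠ 0 := by
              exact_mod_cast (by linarith : t ≠ 0)
            rw [Complex.real_smul, Complex.real_smul, hu]
            push_cast
            field_simp
            ring
        have h5 := (convex_closedBall (0:ℂ) 1).segment_subset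
          (by rw [mem_closedBall, dist_zero_right]; exact he)
          (by rw [mem_closedBall, dist_zero_right]; exact ht2.le) hseg
        rw [mem_closedBall, dist_zero_right] at h5
        exact h5
      · simp only
        rw [add_sub_cancel_left, norm_mul, Complex.norm_real, Real.norm_eq_abs,
          abs_of_pos (by linarith)]
        nlinarith
  apply isPreconnected_of_forall_pair
  intro x hx y hy
  obtain ⟨T1, h1, ⟨a, ha1, ha2⟩, h2, h3⟩ := rad x hx.1 hx.2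
  obtain ⟨T2, h4, ⟨b, hb1, hb2⟩, h5, h6⟩ := rad y hy.1 hy.2
  refine ⟨T1 ∪ C ∪ T2, union_subset (union_subset h3 hCS) h6, Or.inl (Or.inl h1), Or.inr h4, ?_⟩
  exact (h2.union a ha1 ha2 hC).union b (Or.inr hb2) hb1 h5

end Pool.Agent.H69.SM
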